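import Pool.Agent.Helper89.MM.Bridge

/-!
# The average order of vanishing `r + 1/2` in families of elliptic curves through `r` marked points

For every number field `K` we consider three families of Weierstrass equations over `𝓞 K`: all of them,
those through `(0, 0)`, and those through `(0, 0)` and `(e, 0)`; the number of marked points is
`r = 0, 1, 2`. If the L-function of `E` continues to `s = 1`, the residue of `L'/L(E, s)` at `s = 1` is
its order there. We prove that the mean of `L'/L(E, s)` over the members of the family up to a given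
height tends, for `Re s > 3/2`, to a function which continues meromorphically to `Re s > 5/6` and has at
`s = 1` a simple pole with the residue `r + 1/2`: the value predicted for the average analytic rank of
a family with `r` independent points.

The definitions are in `Pool/Agent/Helper89/MM/Defs.lean`.
-/

set_option autoImplicit false

namespace Pool.Agent.Results.MP_7ed9c3_nt.AverageOrder

open NumberField IsDedekindDomain Filter Topology
open Pool.Agent.Helper89.EllipticFamilies (trace factor LSeries param box mean zeroPoints onePoint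
  twoPoints Models exists_zero exists_one exists_two LSeries_eq ns_ok mean_eq)

/-- **The average order is `r + 1/2`**: for `Re s > 3/2` the mean over the family `c` of the
logarithmic derivative `L'/L(E, s)` has a limit `D s`, for every integral basis. The function `D` is
meromorphic for `Re s > 5/6`, `(s - 1) D s` tends to `r + 1/2` for `s → 1`, and `D` is the sum of
`-r ζ_K'/ζ_K(s) - ζ_K'/ζ_K(2 s - 1)` and of a function holomorphic for `Re s > 5/6`. -/
def HasAverageOrder {K : Type} [Field K] [NumberField K] {J : Type} [Fintype J]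
    (c : (J → 𝓞 K) → WeierstrassCurve (𝓞 K)) (r : ℕ) : Prop :=
  ∃ D : ℂ → ℂ, MeromorphicOn D {s : ℂ | 5 / 6 < s.re} ∧
    Tendsto (fun s => (s - 1) * D s) (𝓝[≠] 1) (𝓝 (r + 1 / 2)) ∧
    (∃ h : ℂ → ℂ, DifferentiableOn ℂ h {s : ℂ | 5 / 6 < s.re} ∧ ∀ s : ℂ, 1 < s.re →
      D s = h s - r * logDeriv (dedekindZeta K) s - logDeriv (dedekindZeta K) (2 * s - 1)) ∧
    ∀ (I : Type) [Fintype I] (ω : Module.Basis I ℤ (𝓞 K)) (s : ℂ), 3 / 2 < s.re →
      Tendsto (mean ω c fun W => logDeriv (LSeries W) s) atTop (𝓝 (D s))

theorem hasAverageOrder {K : Type} [Field K] [NumberField K] {J : Type} [Fintype J] [DecidableEq J]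
    {c : (J → 𝓞 K) → WeierstrassCurve (𝓞 K)} {F : Pool.Agent.Helper89.MM.Fam K J} (hM : Models c F) :
    HasAverageOrder c F.r := by
  classical
  obtain ⟨D, h1, h2, h3, h4⟩ := F.main_der (ns := fun a => (c a).Δ ≠ 0) (ns_ok hM)
  refine ⟨D, h1, h2, h3, fun I _ ω s hs => ?_⟩
  have h5 := fun H : ℕ => mean_eq (c := c) (ns := fun a => (c a).Δ ≠ 0) (fun _ => Iff.rfl) ω
    (fun W => logDeriv (LSeries W) s) (fun a => logDeriv (F.L a) s)
    (fun a => congrArg (fun f : ℂ → ℂ => logDeriv f s) (LSeries_eq hM a)) H
  exact Tendsto.congr (fun H => (h5 H).symm) (h4 I ω s hs)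

/-- **The average order in the families of elliptic curves through `r = 0, 1, 2` points is
`r + 1/2`.** -/
theorem result (K : Type) [Field K] [NumberField K] :
    HasAverageOrder (K := K) zeroPoints 0 ∧ HasAverageOrder (K := K) onePoint 1 ∧
      ∀ e : 𝓞 K, e ≠ 0 → HasAverageOrder (twoPoints e) 2 := by
  refine ⟨?_, ?_, fun e he => ?_⟩
  · obtain ⟨F, hr, hF⟩ := exists_zero K
    exact hr ▸ hasAverageOrder hF
  · obtain ⟨F, hr, hF⟩ := exists_one K
    exact hr ▸ hasAverageOrder hF
  · obtain ⟨F, hr, hF⟩ := exists_two he
    exact hr ▸ hasAverageOrder hF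

end Pool.Agent.Results.MP_7ed9c3_nt.AverageOrder
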