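import Pool.Agent.Helper89.CP.Main

/-!
# The Euler products at the central point for almost all elliptic curves through marked points

Let `K` be any number field, and consider three families of Weierstrass equations over `𝓞 K`: all of
them, those through `(0, 0)`, and those through `(0, 0)` and `(e, 0)`; the number of marked points is
`r = 0, 1, 2`. It is not known whether the L-series of a member continues to the central point `s = 1`.
We show that its Euler product at `s = 1`, over the primes of norm at most `x`, is
`(log x) ^ (-(r + 1/2) + o(1))` for almost all members and for ALL `x` up to a power of the height: it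
behaves as for a function with a zero of order `r + 1/2`. For the twists by an arbitrary function `ψ` on the
primes with values in the closed unit disk (for `ψ(v) = N v ^ (-it)` we get the point `1 + it`, for Hecke
characters the twisted L-series) it is
`exp (- Re ∑ (r ψ(v) + ψ(v)² / 2) / N v + O ((log log x) ^ (1/2 + o(1))))`.
The error terms are explicit, and the number of the exceptions is smaller than any power of the quality.

The definitions are in `Pool/Agent/Helper89/MM/Defs.lean` (families, `trace`, `param`) and in
`Pool/Agent/Helper89/CP/Defs.lean`.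
-/

set_option autoImplicit false

namespace Pool.Agent.Results.MP_7ed9c3_nt.CentralProducts

open NumberField IsDedekindDomain
open Pool.Agent.Helper89.EllipticFamilies (trace param zeroPoints onePoint twoPoints Models exists_zero
  exists_one exists_two centralFactor primesUpTo centralProduct mainTerm errorTerm exceptions)

/-- **The law of the central Euler products**, for a family `c` with `r` marked points and with the
parameters `J`: the products do not vanish, and for all `ε, A > 0` there are `k` and `C` such that in each
box with the side `N` all but `C l ^ (-A) N ^ (dim)` members have, for ALL `x` with `x ^ k ≤ N`,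
`|log |P(x)| + Re ∑ (r ψ(v) + ψ(v)² / 2) / N v| ≤ l (log log x) ^ (1/2) (1 + log log log x) ^ ε`, where
`P(x)` is the Euler product of `L(E ⊗ ψ, s)` at `s = 1` over `N v ≤ x`; the constants are the same for all
functions `ψ` on the primes with `|ψ(v)| ≤ 1`. For `ψ = 1` the main term is `(r + 1/2) log log x`. -/
def HasCentralLaw {K : Type} [Field K] [NumberField K] {J : Type} [Fintype J]
    (c : (J → 𝓞 K) → WeierstrassCurve (𝓞 K)) (r : ℕ) : Prop :=
  (∀ (a : J → 𝓞 K) (ψ : HeightOneSpectrum (𝓞 K) → ℂ) (x : ℕ), (∀ v, ‖ψ v‖ ≤ 1) →
    centralProduct (c a) ψ x ≠ 0) ∧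
  ∀ ε A : ℝ, 0 < ε → 0 < A → ∃ (k : ℕ) (C : ℝ), 0 < k ∧
    ∀ (ω : Module.Basis (Fin (Module.finrank ℚ K)) ℤ (𝓞 K)) (U : J × Fin (Module.finrank ℚ K) → ℤ)
      (N : ℕ), 0 < N → ∀ l : ℝ, 1 ≤ l →
      (∀ ψ : HeightOneSpectrum (𝓞 K) → ℂ, (∀ v, ‖ψ v‖ ≤ 1) →
        ((exceptions c ω U N k ε l fun W x =>
          Real.log ‖centralProduct W ψ x‖ + (mainTerm r ψ x).re).ncard : ℝ) ≤
          C * l ^ (-A) * (N : ℝ) ^ (Fintype.card J * Module.finrank ℚ K)) ∧
      ((exceptions c ω U N k ε l fun W x =>
        Real.log ‖centralProduct W (fun _ => 1) x‖ + (r + 1 / 2) * Real.log (Real.log x)).ncard : ℝ) ≤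
        C * l ^ (-A) * (N : ℝ) ^ (Fintype.card J * Module.finrank ℚ K)

theorem hasCentralLaw {K : Type} [Field K] [NumberField K] {J : Type} [Fintype J] [DecidableEq J]
    {c : (J → 𝓞 K) → WeierstrassCurve (𝓞 K)} {F : Pool.Agent.Helper89.MM.Fam K J} (hM : Models c F) :
    HasCentralLaw c F.r := by
  refine ⟨fun a ψ x hψ => Pool.Agent.Helper89.CP.central_ne hM a hψ x, fun ε A hε hA => ?_⟩
  obtain ⟨k, C, hk, -, h⟩ := Pool.Agent.Helper89.CP.law_one hM hε hA
  exact ⟨k, C, hk, h⟩

/-- **Central Euler products in the families of elliptic curves through `r = 0, 1, 2` points.** -/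
theorem result (K : Type) [Field K] [NumberField K] :
    HasCentralLaw (K := K) zeroPoints 0 ∧ HasCentralLaw (K := K) onePoint 1 ∧
      ∀ e : 𝓞 K, e ≠ 0 → HasCentralLaw (twoPoints e) 2 := by
  refine ⟨?_, ?_, fun e he => ?_⟩
  · obtain ⟨F, hr, hF⟩ := exists_zero K
    exact hr ▸ hasCentralLaw hF
  · obtain ⟨F, hr, hF⟩ := exists_one K
    exact hr ▸ hasCentralLaw hF
  · obtain ⟨F, hr, hF⟩ := exists_two he
    exact hr ▸ hasCentralLaw hF

end Pool.Agent.Results.MP_7ed9c3_nt.CentralProducts
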