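import Pool.Agent.Helper89.MM.Bridge

/-!
# Moments of the L-series of elliptic curves over a number field in families through marked points

For every number field `K` we consider three families of Weierstrass equations over `𝓞 K`: all of them,
those through `(0, 0)`, and those through `(0, 0)` and `(e, 0)`. For each family, with `r = 0, 1, 2`
marked points, the mean values of all integral powers of the L-series are computed; as functions of `s`
they continue meromorphically to `Re s > 5/6`, and at `s = 1` their order is known.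

The definitions are in `Pool/Agent/Helper89/MM/Defs.lean`.
-/

set_option autoImplicit false

namespace Pool.Agent.Results.MP_7ed9c3_nt.MeanMoments

open NumberField IsDedekindDomain Filter Topology
open Pool.Agent.Helper89.EllipticFamilies (trace factor LSeries param box mean zeroPoints onePoint
  twoPoints Models exists_zero exists_one exists_two LSeries_eq ns_ok mean_eq)

/-- **The `k`-th moment**, for a family with `r` marked points: for `Re s > 3/2` the mean of
`L(E, s) ^ k` has a limit `M s`, for every integral basis. The function `M` is meromorphic for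
`Re s > 5/6`, its order at `s = 1` is `k r - k (k - 1) / 2`, and it is the product of
`ζ_K(s) ^ (-k r) ζ_K(2 s - 1) ^ (k (k - 1) / 2)` and of a function holomorphic for `Re s > 5/6` which
does not vanish at `s = 1`. -/
def HasMoment {K : Type} [Field K] [NumberField K] {J : Type} [Fintype J]
    (c : (J → 𝓞 K) → WeierstrassCurve (𝓞 K)) (r : ℕ) (k : ℤ) : Prop :=
  ∃ M : ℂ → ℂ, MeromorphicOn M {s : ℂ | 5 / 6 < s.re} ∧
    meromorphicOrderAt M 1 = ((k * r - k * (k - 1) / 2 : ℤ) : WithTop ℤ) ∧
    (∃ G : ℂ → ℂ, DifferentiableOn ℂ G {s : ℂ | 5 / 6 < s.re} ∧ G 1 ≠ 0 ∧ ∀ s : ℂ, 1 < s.re →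
      M s = G s * dedekindZeta K s ^ (-(k * r)) * dedekindZeta K (2 * s - 1) ^ (k * (k - 1) / 2)) ∧
    ∀ (I : Type) [Fintype I] (ω : Module.Basis I ℤ (𝓞 K)) (s : ℂ), 3 / 2 < s.re →
      Tendsto (mean ω c fun W => LSeries W s ^ k) atTop (𝓝 (M s))

theorem hasMoment {K : Type} [Field K] [NumberField K] {J : Type} [Fintype J] [DecidableEq J]
    {c : (J → 𝓞 K) → WeierstrassCurve (𝓞 K)} {F : Pool.Agent.Helper89.MM.Fam K J} (hM : Models c F)
    (k : ℤ) : HasMoment c F.r k := by
  classical
  obtain ⟨M, h1, h2, h3, h4⟩ := F.main_power (ns := fun a => (c a).Δ ≠ 0) (ns_ok hM) k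
  refine ⟨M, h1, h2, h3, fun I _ ω s hs => ?_⟩
  have h5 := fun H : ℕ => mean_eq (c := c) (ns := fun a => (c a).Δ ≠ 0) (fun _ => Iff.rfl) ω
    (fun W => LSeries W s ^ k) (fun a => F.L a s ^ k)
    (fun a => congrArg (fun f : ℂ → ℂ => f s ^ k) (LSeries_eq hM a)) H
  exact Tendsto.congr (fun H => (h5 H).symm) (h4 I ω s hs)

/-- **Moments of L-series in families of elliptic curves through `r = 0, 1, 2` points.** -/
theorem result (K : Type) [Field K] [NumberField K] (k : ℤ) :
    HasMoment (K := K) zeroPoints 0 k ∧ HasMoment (K := K) onePoint 1 k ∧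
      ∀ e : 𝓞 K, e ≠ 0 → HasMoment (twoPoints e) 2 k := by
  refine ⟨?_, ?_, fun e he => ?_⟩
  · obtain ⟨F, hr, hF⟩ := exists_zero K
    exact hr ▸ hasMoment hF k
  · obtain ⟨F, hr, hF⟩ := exists_one K
    exact hr ▸ hasMoment hF k
  · obtain ⟨F, hr, hF⟩ := exists_two he
    exact hr ▸ hasMoment hF k

end Pool.Agent.Results.MP_7ed9c3_nt.MeanMoments
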