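import Pool.Agent.Helper78.RC.Lim
import Pool.Agent.Helper78.RC.Anti

/-!
# The limit of the L-series in families of elliptic curves over a number field, and its natural boundary

Let `K` be any number field, and consider the families of Weierstrass equations over `𝓞 K` through
`r = 0, 1, 2` marked points: all of them, those through `(0, 0)`, and those through `(0, 0)` and `(e, 0)`.
The Euler product of the L-series of a member converges absolutely for `Re s > 3/2`, and it is not known
whether it continues beyond that line. We prove, for each of the families: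

* almost all members have, at all scales up to a power of the height, the continuation to `Re s > 1` which
  the Riemann hypothesis predicts: for ALL `1 ≤ y ≤ x ≤ (height)^(1/k)` and ALL `s` with `Re s ≥ σ > 1` the
  Euler product over `y < N v ≤ x` is `exp w` with `|w| ≤ A (1 + |s|) y ^ (-δ)`, for every `δ < σ - 1`; the
  number of the exceptions is smaller than any power of `A`;
* the L-series on `Re s > 3/2`, and these truncated products on `Re s > 1`, have a limit law, as random
  functions for the topology of uniform convergence on compact sets, and the limit is the same random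
  function: the Euler product whose factors at the prime ideals `v` are those of independent members with
  uniformly distributed residues modulo `v`. Almost surely it converges for `Re s > 1`, locally uniformly,
  to a holomorphic function without zeros;
* almost surely the line `Re s = 1` is a natural boundary of this function: it has no meromorphic
  continuation across any point of the line. (For each single member one expects a continuation to `ℂ`.)

The definitions are in `Pool/Agent/Helper89/MM/Defs.lean` (`factor`, `LSeries`, the families, `param`,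
`mean`), in `Pool/Agent/Helper89/CP/Defs.lean` (`primesUpTo`) and in `Pool/Agent/Helper78/RC/Defs.lean`.
-/

set_option autoImplicit false

namespace Pool.Agent.Results.MP_7ed9c3_nt.NaturalBoundary

open NumberField IsDedekindDomain MeasureTheory Filter Topology
open Pool.Agent.Helper89.EllipticFamilies (factor LSeries param mean primesUpTo zeroPoints onePoint
  twoPoints Models exists_zero exists_one exists_two)
open Pool.Agent.Helper78.EllipticLimit (partialProduct outliers Residues residueMeasure randomProduct
  randomLSeries IsTest)

/-- **Continuation to `Re s > 1` at all scales up to a power of the height, for almost all members.** For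
all `σ > 1`, `0 < δ < σ - 1` and `B > 0` there are `k` and `C` such that for all integral bases, in each box
with the side `N` and for each `A ≥ 1` all but `C A ^ (-B) N ^ (dim)` members have the following property:
for ALL `1 ≤ y ≤ x` with `x ^ k ≤ N` and ALL `s` with `Re s ≥ σ` the product of the Euler factors over
`y < N v ≤ x` is `exp w` with `|w| ≤ A (1 + |s|) y ^ (-δ)`. -/
def HasTruncatedContinuation {K : Type} [Field K] [NumberField K] {J : Type} [Fintype J]
    (c : (J → 𝓞 K) → WeierstrassCurve (𝓞 K)) : Prop :=
  ∀ σ δ B : ℝ, 0 < δ → 1 + δ < σ → 0 < B → ∃ (k : ℕ) (C : ℝ), 0 < k ∧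
    ∀ (ω : Module.Basis (Fin (Module.finrank ℚ K)) ℤ (𝓞 K)) (U : J × Fin (Module.finrank ℚ K) → ℤ)
      (N : ℕ), 0 < N → ∀ A : ℝ, 1 ≤ A →
      ((outliers c ω U N k σ δ A).ncard : ℝ) ≤
        C * A ^ (-B) * (N : ℝ) ^ (Fintype.card J * Module.finrank ℚ K)

/-- **The limit law.** For every compact set `R` and every bounded functional `Φ` which is uniformly
continuous for the uniform distance on `R`: if `R` is contained in `Re s > 3/2`, the mean value of
`Φ (LSeries W)` over the members `W` of height at most `H` tends to the expectation of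
`Φ (randomLSeries c b)`. If `R` is contained in `Re s > 1`, this holds with the Euler product over
`N v ≤ x(H)` instead of `LSeries W`, for all `x(H) → ∞` with `x(H) ^ k ≤ H`, where `k` depends only on
the family and on `R`. -/
def HasLimitLaw {K : Type} [Field K] [NumberField K] {J : Type} [Fintype J]
    (c : (J → 𝓞 K) → WeierstrassCurve (𝓞 K)) : Prop :=
  (∀ R : Set ℂ, IsCompact R → (∀ s ∈ R, 1 < s.re) → ∀ Φ : (ℂ → ℂ) → ℂ, IsTest R Φ →
    Integrable (fun b : Residues K J => Φ (randomLSeries c b)) (residueMeasure K J)) ∧
  (∀ R : Set ℂ, IsCompact R → (∀ s ∈ R, 3 / 2 < s.re) →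
    ∀ (ω : Module.Basis (Fin (Module.finrank ℚ K)) ℤ (𝓞 K)) (Φ : (ℂ → ℂ) → ℂ), IsTest R Φ →
      Tendsto (mean ω c fun W => Φ (LSeries W)) atTop
        (𝓝 (∫ b, Φ (randomLSeries c b) ∂(residueMeasure K J)))) ∧
  (∀ R : Set ℂ, IsCompact R → (∀ s ∈ R, 1 < s.re) → ∃ k : ℕ, 0 < k ∧
    ∀ (ω : Module.Basis (Fin (Module.finrank ℚ K)) ℤ (𝓞 K)) (Φ : (ℂ → ℂ) → ℂ), IsTest R Φ →
      ∀ x : ℕ → ℕ, Tendsto x atTop atTop → (∀ᶠ H in atTop, x H ^ k ≤ H) →
      Tendsto (fun H : ℕ => mean ω c (fun W => Φ (partialProduct W (x H))) H) atTop
        (𝓝 (∫ b, Φ (randomLSeries c b) ∂(residueMeasure K J))))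

/-- **The natural boundary.** Almost surely the random Euler product converges for `Re s > 1`, locally
uniformly, to a holomorphic function without zeros, and there is no disk around a point of the line
`Re s = 1` with a meromorphic function on it which agrees with this function for `Re s > 1`. -/
def HasNaturalBoundary {K : Type} [Field K] [NumberField K] {J : Type} [Fintype J]
    (c : (J → 𝓞 K) → WeierstrassCurve (𝓞 K)) : Prop :=
  ∀ᵐ b ∂(residueMeasure K J),
    TendstoLocallyUniformlyOn (fun (x : ℕ) s => randomProduct c b x s) (randomLSeries c b) atTop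
      {s : ℂ | 1 < s.re} ∧
    DifferentiableOn ℂ (randomLSeries c b) {s : ℂ | 1 < s.re} ∧
    (∀ s : ℂ, 1 < s.re → randomLSeries c b s ≠ 0) ∧
    ∀ t r : ℝ, 0 < r → ¬ ∃ g : ℂ → ℂ,
      MeromorphicOn g (Metric.ball (1 + (t : ℂ) * Complex.I) r) ∧
      ∀ s ∈ Metric.ball (1 + (t : ℂ) * Complex.I) r, 1 < s.re → g s = randomLSeries c b s

theorem all_three {K : Type} [Field K] [NumberField K] {J : Type} [Fintype J] [DecidableEq J]
    {c : (J → 𝓞 K) → WeierstrassCurve (𝓞 K)} {F : Pool.Agent.Helper89.MM.Fam K J} (hM : Models c F) :
    HasTruncatedContinuation c ∧ HasLimitLaw c ∧ HasNaturalBoundary c := by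
  refine ⟨?_, ⟨?_, ?_, ?_⟩, ?_⟩
  · intro σ δ B hδ hσ hB
    obtain ⟨k, C, hk, -, h⟩ := Pool.Agent.Helper78.RC.partA hM hδ hσ hB
    exact ⟨k, C, hk, h⟩
  · intro R hR hR1 Φ hΦ
    exact Pool.Agent.Helper78.RC.test_int hM hR hR1 hΦ
  · intro R hR hR1 ω Φ hΦ
    exact Pool.Agent.Helper78.RC.lim_L hM hR hR1 ω hΦ
  · intro R hR hR1
    exact Pool.Agent.Helper78.RC.lim_partial hM hR hR1
  · unfold HasNaturalBoundary
    filter_upwards [Pool.Agent.Helper78.RC.good_ae F, Pool.Agent.Helper78.RC.boundary hM] with b hb hbd
    refine ⟨hb.locUnif hM, hb.diff hM, fun s hs => ?_, hbd⟩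
    rw [hb.limit hM hs]
    exact Complex.exp_ne_zero _

/-- **The limit of the L-series in the families of elliptic curves through `r = 0, 1, 2` points, and its
natural boundary `Re s = 1`.** -/
theorem result (K : Type) [Field K] [NumberField K] :
    (HasTruncatedContinuation (K := K) zeroPoints ∧ HasLimitLaw (K := K) zeroPoints ∧
      HasNaturalBoundary (K := K) zeroPoints) ∧
    (HasTruncatedContinuation (K := K) onePoint ∧ HasLimitLaw (K := K) onePoint ∧
      HasNaturalBoundary (K := K) onePoint) ∧
    ∀ e : 𝓞 K, e ≠ 0 → HasTruncatedContinuation (twoPoints e) ∧ HasLimitLaw (twoPoints e) ∧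
      HasNaturalBoundary (twoPoints e) := by
  refine ⟨?_, ?_, fun e he => ?_⟩
  · obtain ⟨F, -, hF⟩ := exists_zero K
    exact all_three hF
  · obtain ⟨F, -, hF⟩ := exists_one K
    exact all_three hF
  · obtain ⟨F, -, hF⟩ := exists_two he
    exact all_three hF

end Pool.Agent.Results.MP_7ed9c3_nt.NaturalBoundary
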